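import Pool.Agent.H80.LD.Targets

/-!
# MP_47c37b, row LOB (board ldp): local boundedness of the moments
-/

set_option autoImplicit false

open MeasureTheory SchwartzMap Filter Topology
open scoped ENNReal ContDiff InnerProductSpace

namespace Pool.Agent.H79.LD

open Pool.Agent.H80.LD
open Pool.Agent.H43.DPC (V S SD moment)

theorem sep_half {d : ℕ} {δ : ℝ} (hδ : 0 < δ) {s t s' t' : Set (V d)} (hs : IsCompact s)
    (ht : IsCompact t) (hs' : s' ⊆ Metric.cthickening (δ / 4) s)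
    (ht' : t' ⊆ Metric.cthickening (δ / 4) t) (h : ∀ x ∈ s, ∀ y ∈ t, δ ≤ ‖x - y‖) :
    ∀ x ∈ s', ∀ y ∈ t', δ / 2 ≤ ‖x - y‖ := by
  intro x hx y hy
  have hx' := hs' hx
  have hy' := ht' hy
  rw [hs.cthickening_eq_biUnion_closedBall (by positivity)] at hx'
  rw [ht.cthickening_eq_biUnion_closedBall (by positivity)] at hy'
  obtain ⟨a, ha, hxa⟩ := Set.mem_iUnion₂.1 hx'
  obtain ⟨b, hb, hyb⟩ := Set.mem_iUnion₂.1 hy'
  rw [Metric.mem_closedBall, dist_eq_norm] at hxa hyb
  have h1 := h a ha b hb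
  have h2 : a - b = -(x - a) + (x - y) + (y - b) := by abel
  have h3 : ‖a - b‖ ≤ ‖x - a‖ + ‖x - y‖ + ‖y - b‖ := by
    rw [h2]
    refine (norm_add_le _ _).trans (add_le_add ((norm_add_le _ _).trans ?_) le_rfl)
    rw [norm_neg]
  linarith

theorem two_bd {d : ℕ} {a c : ℝ} (ha : 0 < a) (hc : 0 ≤ c) {δ : ℝ} (hδ : 0 < δ) (f g : S d)
    (hf : ∀ x, 0 ≤ f x) (hg : ∀ x, 0 ≤ g x)
    (hsep : ∀ x ∈ tsupport f, ∀ y ∈ tsupport g, δ / 2 ≤ ‖x - y‖) :
    ∫ x, ∫ y, c * ‖x - y‖ ^ (-(2 * a)) * (f x * g y) ≤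
      c * (δ / 2) ^ (-(2 * a)) * ((∫ x, f x) * ∫ x, g x) := by
  have hpt : ∀ x y, c * ‖x - y‖ ^ (-(2 * a)) * (f x * g y) ≤
      c * (δ / 2) ^ (-(2 * a)) * (f x * g y) := by
    intro x y
    by_cases hx : f x = 0
    · rw [hx, zero_mul, mul_zero, mul_zero]
    by_cases hy : g y = 0
    · rw [hy, mul_zero, mul_zero, mul_zero]
    have h1 : δ / 2 ≤ ‖x - y‖ :=
      hsep x (subset_tsupport _ (Function.mem_support.2 hx)) y
        (subset_tsupport _ (Function.mem_support.2 hy))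
    have h2 : ‖x - y‖ ^ (-(2 * a)) ≤ (δ / 2) ^ (-(2 * a)) :=
      Real.rpow_le_rpow_of_nonpos (by positivity) h1 (by linarith)
    exact mul_le_mul_of_nonneg_right (mul_le_mul_of_nonneg_left h2 hc)
      (mul_nonneg (hf x) (hg y))
  have hnn : ∀ x y, 0 ≤ c * ‖x - y‖ ^ (-(2 * a)) * (f x * g y) := fun x y =>
    mul_nonneg (mul_nonneg hc (Real.rpow_nonneg (norm_nonneg _) _)) (mul_nonneg (hf x) (hg y))
  have hin : ∀ x, ∫ y, c * ‖x - y‖ ^ (-(2 * a)) * (f x * g y) ≤
      c * (δ / 2) ^ (-(2 * a)) * (∫ y, g y) * f x := by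
    intro x
    have e1 : ∫ y, c * (δ / 2) ^ (-(2 * a)) * (f x * g y) =
        c * (δ / 2) ^ (-(2 * a)) * (∫ y, g y) * f x := by
      rw [integral_const_mul, integral_const_mul]
      ring
    rw [← e1]
    refine integral_mono_of_nonneg (Eventually.of_forall (hnn x)) ?_ (Eventually.of_forall (hpt x))
    exact (g.integrable.const_mul _).const_mul _
  have e2 : ∫ x, c * (δ / 2) ^ (-(2 * a)) * (∫ y, g y) * f x =
      c * (δ / 2) ^ (-(2 * a)) * ((∫ x, f x) * ∫ x, g x) := by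
    rw [integral_const_mul]
    ring
  rw [← e2]
  refine integral_mono_of_nonneg (Eventually.of_forall fun x => integral_nonneg (hnn x)) ?_
    (Eventually.of_forall hin)
  exact f.integrable.const_mul _

theorem pf_LOB (hSMJ : T_SMJ) (hPRB : T_PRB) : T_LOB := by
  intro d a c ha μ _ hD hT n δ hδ
  obtain ⟨hc, hT2⟩ := hT
  set K' : ℝ := c * (δ / 2) ^ (-(2 * a)) with hK'
  have hK'0 : 0 ≤ K' := mul_nonneg hc (Real.rpow_nonneg (by positivity) _)
  refine ⟨(n.factorial : ℝ) * K' ^ (n / 2), by positivity, ?_⟩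
  intro f hf
  obtain ⟨hfc, hfs⟩ := hf
  -- the bound with ε
  have key : ∀ ε : ℝ, 0 < ε →
      |moment μ f| ≤ (n.factorial : ℝ) * K' ^ (n / 2) * ∏ i, ((∫ x, |f i x|) + ε) := by
    intro ε hε
    have hch : ∀ i : Fin n, ∃ h : S d, (∀ x, |f i x| ≤ h x) ∧ HasCompactSupport h ∧
        tsupport h ⊆ Metric.cthickening (δ / 4) (tsupport (f i)) ∧
        ∫ x, h x ≤ (∫ x, |f i x|) + ε := fun i =>
      hSMJ d (f i) ε (δ / 4) (hfc i) hε (by positivity)
    choose h h1 h2 h3 h4 using hch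
    have h0 : ∀ i x, 0 ≤ h i x := fun i x => (abs_nonneg _).trans (h1 i x)
    have hu : ∀ i, 0 ≤ ∫ x, h i x := fun i => integral_nonneg (h0 i)
    have hC0 : ∀ i ∈ (Finset.univ : Finset (Fin n)), ∀ j ∈ (Finset.univ : Finset (Fin n)), i ≠ j →
        0 ≤ moment μ ![h i, h j] := by
      intro i _ j _ _
      refine hD.pos 2 _ fun k x => ?_
      fin_cases k
      · exact h0 i x
      · exact h0 j x
    have hC1 : ∀ i ∈ (Finset.univ : Finset (Fin n)), ∀ j ∈ (Finset.univ : Finset (Fin n)), i ≠ j →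
        moment μ ![h i, h j] ≤ K' * ((∫ x, h i x) * ∫ x, h j x) := by
      intro i _ j _ hij
      have hsep := sep_half hδ (hfc i) (hfc j) (h3 i) (h3 j) (hfs i j hij)
      have hdisj : Disjoint (tsupport (h i)) (tsupport (h j)) := by
        rw [Set.disjoint_left]
        intro x hx hy
        have := hsep x hx x hy
        rw [sub_self, norm_zero] at this
        linarith
      rw [hT2 (h i) (h j) (h2 i) (h2 j) hdisj]
      exact two_bd ha hc hδ (h i) (h j) (h0 i) (h0 j) hsep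
    have hb := hPRB.bound n (fun i j => moment μ ![h i, h j]) K' (fun i => ∫ x, h i x)
      Finset.univ hK'0 hu hC0 hC1
    rw [Finset.card_univ, Fintype.card_fin] at hb
    calc |moment μ f| ≤ moment μ h := hD.maj n f h h1
      _ ≤ pair (fun i j => moment μ ![h i, h j]) Finset.univ := hD.gau n h h0
      _ ≤ _ := hb
      _ ≤ _ := by
        refine mul_le_mul_of_nonneg_left ?_ (by positivity)
        exact Finset.prod_le_prod (fun i _ => hu i) fun i _ => h4 i
  have hcont : Continuous (fun ε : ℝ =>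
      (n.factorial : ℝ) * K' ^ (n / 2) * ∏ i, ((∫ x, |f i x|) + ε)) := by
    refine continuous_const.mul (continuous_finset_prod _ fun i _ => ?_)
    exact continuous_const.add continuous_id
  have hlim : Tendsto (fun ε : ℝ =>
      (n.factorial : ℝ) * K' ^ (n / 2) * ∏ i, ((∫ x, |f i x|) + ε)) (𝓝[>] 0)
      (𝓝 ((n.factorial : ℝ) * K' ^ (n / 2) * ∏ i, ∫ x, |f i x|)) := by
    have := hcont.tendsto 0
    simp only [add_zero] at this
    exact this.mono_left nhdsWithin_le_nhds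
  refine ge_of_tendsto hlim ?_
  filter_upwards [self_mem_nhdsWithin] with ε hε
  exact key ε hε

end Pool.Agent.H79.LD
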